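import Pool.Agent.H78.STN.Stmts

/-! Row FEQ of the board `stn`. -/

set_option autoImplicit false

namespace Pool.STN

lemma feq_step (f : ℕ → ℕ) (h : ∀ n : ℕ, 1 ≤ n → f (3 * n) = 2 * n ∧ f (3 * n - 1) = 4 * n - 1 ∧
    f (3 * n - 2) = 4 * n - 3) (x : ℕ) (hx : 1 ≤ x) : f x = F x ∧ 1 ≤ F x := by
  have h3 : x % 3 < 3 := Nat.mod_lt _ (by norm_num)
  by_cases h0 : x % 3 = 0
  · obtain ⟨n, rfl⟩ : ∃ n, x = 3 * n := ⟨x / 3, by omega⟩
    have h1 := (h n (by omega)).1
    have h2 : F (3 * n) = 2 * n := by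
      unfold F
      rw [if_pos h0]
      omega
    rw [h1, h2]
    omega
  · by_cases h2 : x % 3 = 2
    · obtain ⟨n, hn, rfl⟩ : ∃ n, 1 ≤ n ∧ x = 3 * n - 1 := ⟨(x + 1) / 3, by omega, by omega⟩
      have h1 := (h n hn).2.1
      have h4 : F (3 * n - 1) = 4 * n - 1 := by
        unfold F
        rw [if_neg h0, if_pos h2]
        omega
      rw [h1, h4]
      omega
    · obtain ⟨n, hn, rfl⟩ : ∃ n, 1 ≤ n ∧ x = 3 * n - 2 := ⟨(x + 2) / 3, by omega, by omega⟩
      have h1 := (h n hn).2.2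
      have h4 : F (3 * n - 2) = 4 * n - 3 := by
        unfold F
        rw [if_neg h0, if_neg h2]
        omega
      rw [h1, h4]
      omega

/-- Row FEQ. -/
theorem FEQ_thm : FEQStmt := by
  intro f h m hm i
  induction i with
  | zero => exact ⟨rfl, hm⟩
  | succ i ih =>
    obtain ⟨h1, h2⟩ := ih
    rw [Function.iterate_succ_apply', Function.iterate_succ_apply', h1]
    exact feq_step f h _ h2

end Pool.STN
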